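import Pool.Agent.R920.WC.TwoD

/-!
# Fujita's freeness conjecture for weighted complete intersections of codimension two

Let `X = V(f_0, f_1)` be a complete intersection of degrees `d_0, d_1` and dimension `n` in the
weighted projective space `P(a_0, ..., a_{n+2})`, with arbitrary weights, such that `O(1)` is
invertible on `X` (`hgcd`: `X` does not meet the locus where the torus action has nontrivial
stabilisers). Then `K_X = O(d_0 + d_1 - ∑ a_i)`, and for `A = O(k)`, `k ≥ 1`, and `m ≥ n + 1` the
bundle `K_X + m A = O(e)` is globally generated, by forms of weighted degree `e`.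

The proof. `e` has to be in the semigroup generated by the weights `a_i > 1` of the nonzero
coordinates of a point `v` of `X`. For `g > 1` the number `w(g)` of the weights divisible by `g` is
at most the number `c(g)` of the degrees divisible by `g`, and `e ≥ ∑_{g > 1} φ(g) (c(g) - w(g))`
(`φ` is Euler's function). If `v` has at least three nonzero coordinates, then two of their weights,
`x` and `y`, divide the same degree; let `z` be the third one. Then `gcd(x, y, z) = 1`, and
`[g ∣ lcm(x, y)] + [g ∣ lcm(gcd(x, y), z)] - [g ∣ x] - [g ∣ y] - [g ∣ z] ≤ c(g) - w(g)` for all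
`g > 1`, so that `e` is at least Brauer's bound for the conductor of the semigroup generated by
`x, y, z`. Two coprime weights `x, y` which divide the same degree are treated in the same way.
There remain the points with exactly two nonzero coordinates, with weights `x`, `y` which divide
different degrees only; then each of `f_0`, `f_1` has two monomials in the two variables, so that
`d_0, d_1 ≥ x y`, and the divisors `g` of exactly one of the two degrees contribute enough.
-/

set_option autoImplicit false

namespace Pool.Agent.Results.MP_9ff3e7_ag.CodimensionTwo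

open MvPolynomial

/-- `K_X + m A` is globally generated for `A = O(k)`, `k ≥ 1`, `m ≥ n + 1`, if `X` is a weighted
complete intersection of dimension `n` and codimension two on which `O(1)` is invertible. -/
theorem result (n : ℕ) (a : Fin (n + 3) → ℕ) (ha : ∀ i, 0 < a i)
    (d : Fin 2 → ℕ) (hd : ∀ j, 0 < d j)
    (f : Fin 2 → MvPolynomial (Fin (n + 3)) ℂ) (hf : ∀ j, IsWeightedHomogeneous a (f j) (d j))
    (hgcd : ∀ v : Fin (n + 3) → ℂ, v ≠ 0 → (∀ j, eval v (f j) = 0) →
      ∀ g : ℕ, (∀ i, v i ≠ 0 → g ∣ a i) → g = 1)
    (k m e : ℕ) (hk : 1 ≤ k) (hm : n + 1 ≤ m) (he : e + ∑ i, a i = d 0 + d 1 + m * k) :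
    ∀ v : Fin (n + 3) → ℂ, v ≠ 0 → (∀ j, eval v (f j) = 0) →
      ∃ s : MvPolynomial (Fin (n + 3)) ℂ, IsWeightedHomogeneous a s e ∧ eval v s ≠ 0 := by
  intro v hv hfv
  refine Pool.Agent.R920.WC.generated_two a ha d hd f hf hgcd ?_ v hv hfv
  have h1 : ∑ i, a i = ∑ i, (a i - 1) + (n + 3) := by
    have : ∑ i, a i = ∑ i, ((a i - 1) + 1) := Finset.sum_congr rfl fun i _ => by
      have := ha i
      omega
    rw [this, Finset.sum_add_distrib]
    simp
  have h2 := hd 0
  have h3 := hd 1
  have h4 : n + 1 ≤ m * k := hm.trans (Nat.le_mul_of_pos_right _ hk)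
  omega

end Pool.Agent.Results.MP_9ff3e7_ag.CodimensionTwo
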