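import Pool.Agent.H61.Fu.Final

/-!
# Fujita's very ampleness conjecture for weighted complete intersections of codimension two with
pairwise coprime weights

Let `X = V(f_1, ..., f_c)` be a complete intersection of degrees `d_1, ..., d_c` and dimension `n`
in the weighted projective space `P(a_0, ..., a_{n+c})` with pairwise coprime weights, such that
`O(1)` is invertible on the common zero locus `W` of two of the equations, `f_{j₀}` and `f_{j₁}`
(`hgcd`: `W` does not meet the locus where the torus action has nontrivial stabilisers, the points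
`(0, ..., 1, ..., 0)` with `a_i > 1`). For `c = 2` this says that `O(1)` is invertible on `X`.
Then `K_X = O(∑ d_j - ∑ a_i)`, and for `A = O(k)`, `k ≥ 1`, and `m ≥ n + 2` the bundle
`K_X + m A = O(e)` is very ample: its sections given by the forms of weighted degree `e` have no
base point, separate points and separate tangent vectors.

The proof. A pair of points, or a tangent vector, which is not separated is a point `y` of `X` with
values in `ℂ` or `ℂ[ε]` with `s(y) = s(v)` for all forms `s` of degree `e`. For each `a_i > 1` a pure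
power of `x_i` appears in `f_j`, `j = J(i)`. If two nonzero coordinates `x_i`, `x_k` of `v` have
`J(i) = J(k)`, then `a_i a_k` divides `d_j` and either `e ≥ (a_i - 1)(a_k - 1) + a_i a_k`, so that
the monomials of degree `e` in `x_i`, `x_k` give the equality of the ratios
`(y_i/v_i)^{a_k} = (y_k/v_k)^{a_i}`, or `d_j = a_i a_k`, and then this equality comes from an
equation `f_j(v) = f_j(y) = 0`: from the equation of degree `a_i a_k`, or, if a third coordinate is
nonzero whose weight is a gap of the semigroup generated by `a_i` and `a_k`, from the other equation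
(`Pool.Agent.H61.Fu.gap`). If `v` has only two nonzero coordinates, with different `J(i)`, then
the degrees are at least `a_i a_k`, and one argues in the same way.
-/

set_option autoImplicit false

namespace Pool.Agent.Results.MP_9ff3e7_ag.CoprimeCodimensionTwo

open MvPolynomial

/-- `K_X + m A` is very ample for `A = O(k)`, `k ≥ 1`, `m ≥ n + 2`, if `X` is a weighted complete
intersection of dimension `n` with pairwise coprime weights, two of whose equations define a `W` on
which `O(1)` is invertible. In particular for all weighted complete intersections of codimension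
two with pairwise coprime weights on which `O(1)` is invertible. -/
theorem result (n c : ℕ) (a : Fin (n + c + 1) → ℕ) (ha : ∀ i, 0 < a i)
    (hcop : ∀ i i', i ≠ i' → Nat.Coprime (a i) (a i')) (d : Fin c → ℕ) (hd : ∀ j, 0 < d j)
    (f : Fin c → MvPolynomial (Fin (n + c + 1)) ℂ) (hf : ∀ j, IsWeightedHomogeneous a (f j) (d j))
    (j₀ j₁ : Fin c) (hj : j₀ ≠ j₁)
    (hgcd : ∀ v : Fin (n + c + 1) → ℂ, v ≠ 0 → eval v (f j₀) = 0 → eval v (f j₁) = 0 →
      ∀ g : ℕ, (∀ i, v i ≠ 0 → g ∣ a i) → g = 1)
    (k m e : ℕ) (hk : 1 ≤ k) (hm : n + 2 ≤ m) (he : e + ∑ i, a i = ∑ j, d j + m * k) :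
    -- no base points
    (∀ v : Fin (n + c + 1) → ℂ, v ≠ 0 → (∀ j, eval v (f j) = 0) →
      ∃ s : MvPolynomial (Fin (n + c + 1)) ℂ, IsWeightedHomogeneous a s e ∧ eval v s ≠ 0) ∧
    -- points are separated
    (∀ v w : Fin (n + c + 1) → ℂ, v ≠ 0 → w ≠ 0 → (∀ j, eval v (f j) = 0) →
      (∀ j, eval w (f j) = 0) → (¬ ∃ t : ℂ, t ≠ 0 ∧ ∀ i, w i = t ^ a i * v i) →
      ∃ s : MvPolynomial (Fin (n + c + 1)) ℂ, IsWeightedHomogeneous a s e ∧
        eval v s = 0 ∧ eval w s ≠ 0) ∧
    -- tangent vectors are separated
    (∀ v u : Fin (n + c + 1) → ℂ, v ≠ 0 → (∀ j, eval v (f j) = 0) →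
      (∀ j, ∑ i, eval v (pderiv i (f j)) * u i = 0) → (¬ ∃ τ : ℂ, ∀ i, u i = τ * (a i * v i)) →
      ∃ s : MvPolynomial (Fin (n + c + 1)) ℂ, IsWeightedHomogeneous a s e ∧
        eval v s = 0 ∧ ∑ i, eval v (pderiv i s) * u i ≠ 0) := by
  classical
  -- the two equations
  set d' : Fin 2 → ℕ := ![d j₀, d j₁] with hd'
  set f' : Fin 2 → MvPolynomial (Fin (n + c + 1)) ℂ := ![f j₀, f j₁] with hf'
  have hd2 : ∀ j, 0 < d' j := by
    intro j; fin_cases j
    · exact hd j₀
    · exact hd j₁
  have hf2 : ∀ j, IsWeightedHomogeneous a (f' j) (d' j) := by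
    intro j; fin_cases j
    · exact hf j₀
    · exact hf j₁
  have hto : ∀ v : Fin (n + c + 1) → ℂ, (∀ j, eval v (f j) = 0) → ∀ j, eval v (f' j) = 0 := by
    intro v hv j; fin_cases j
    · exact hv j₀
    · exact hv j₁
  have hX : ∀ i, 1 < a i → ∃ j, eval (Pi.single i 1 : Fin (n + c + 1) → ℂ) (f' j) ≠ 0 := by
    intro i hi
    by_contra hcon
    push Not at hcon
    have h1 := hgcd (Pi.single i 1) (by
      intro h
      have := congrFun h i
      rw [Pi.single_eq_same] at this
      exact one_ne_zero this) (hcon 0) (hcon 1) (a i) (by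
      intro i' hi'
      have : i' = i := by
        by_contra hne
        exact hi' (Pi.single_eq_of_ne hne _)
      rw [this])
    omega
  have hsum : ∑ j, (d j - 1) + 1 ≤ e + ∑ i, (a i - 1) := by
    have h1 : ∑ i, a i = ∑ i, (a i - 1) + (n + c + 1) := by
      have : ∑ i, a i = ∑ i, ((a i - 1) + 1) := Finset.sum_congr rfl fun i _ => by
        have := ha i
        omega
      rw [this, Finset.sum_add_distrib]
      simp
    have h2 : ∑ j, d j = ∑ j, (d j - 1) + c := by
      have : ∑ j, d j = ∑ j, ((d j - 1) + 1) := Finset.sum_congr rfl fun j _ => by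
        have := hd j
        omega
      rw [this, Finset.sum_add_distrib]
      simp
    have h3 : n + 2 ≤ m * k := hm.trans (Nat.le_mul_of_pos_right _ hk)
    omega
  have hE : d' 0 + d' 1 ≤ e + 1 + ∑ i, (a i - 1) := by
    have h1 : (d j₀ - 1) + (d j₁ - 1) ≤ ∑ j, (d j - 1) := by
      rw [← Finset.sum_pair hj (f := fun j => d j - 1)]
      exact Finset.sum_le_sum_of_subset (Finset.subset_univ _)
    have h2 := hd j₀
    have h3 := hd j₁
    show d j₀ + d j₁ ≤ _
    omega
  obtain ⟨J, S⟩ := Pool.Agent.H61.Fu.exists_sys ha hcop hd2 hf2 hX hE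
  have hb : ∀ v : Fin (n + c + 1) → ℂ, v ≠ 0 → (∀ j, eval v (f' j) = 0) →
      ∃ s : MvPolynomial (Fin (n + c + 1)) ℂ, IsWeightedHomogeneous a s e ∧ eval v s ≠ 0 := by
    intro v hv hfv
    refine Pool.Agent.R920.WC.generated a ha hcop d' hd2 f' hf2 hX ?_ v hv hfv
    rw [Fin.sum_univ_two]
    have h2 := hd2 0
    have h3 := hd2 1
    omega
  refine ⟨fun v hv hfv => hb v hv (hto v hfv), ?_, ?_⟩
  · intro v w hv hw hfv hfw hne
    by_contra hcon
    push Not at hcon
    exact hne (Pool.Agent.H61.Fu.points S hb v w hv hw (hto v hfv) (hto w hfw) hcon)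
  · intro v u hv hfv hfu hne
    by_contra hcon
    push Not at hcon
    exact hne (Pool.Agent.H61.Fu.tangents S hb v u hv (hto v hfv) (by
      intro j; fin_cases j
      · exact hfu j₀
      · exact hfu j₁) hcon)

end Pool.Agent.Results.MP_9ff3e7_ag.CoprimeCodimensionTwo
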