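import Pool.Agent.R920.WC.Poly

/-!
# Fujita's freeness conjecture for weighted complete intersections of any codimension with pairwise
coprime weights

Let `X = V(f_1, ..., f_c)` be a complete intersection of degrees `d_1, ..., d_c` and dimension `n`
in the weighted projective space `P(a_0, ..., a_{n+c})` with pairwise coprime weights, such that
`O(1)` is invertible on `X` (`hgcd`: `X` does not meet the locus where the torus action has
nontrivial stabilisers, the points `(0, ..., 1, ..., 0)` with `a_i > 1`). Then
`K_X = O(∑ d_j - ∑ a_i)`, and for `A = O(k)`, `k ≥ 1`, and `m ≥ n + 1` the bundle `K_X + m A = O(e)`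
is globally generated, by forms of weighted degree `e`.

The proof. `e ∈ ℕ` has to be a combination with natural coefficients of the weights `a_i`, `i ∈ I`,
where `I` is the set of the nonzero coordinates of a point `v` of `X`. We may assume `a_i > 1` for
`i ∈ I`. For each `a_i > 1` a pure power of `x_i` appears in some `f_j`, `j = J(i)`; as `f_j(v) = 0`,
a second monomial in the variables of `I` has the degree `d_j`. If `J(i) = J(k)` for different
`i, k ∈ I`, then `a_i a_k` divides `d_j` and `e ≥ (a_i - 1)(a_k - 1)` follows. Otherwise let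
`d_{J(i)} = ℓ_i a_i`; we choose a minimal subset `C` of `I` in which all `ℓ_i a_i`, `i ∈ C`, have
second representations. Along `C` all elements of the semigroup have representations whose
coefficients are smaller than `ℓ_i` for `i ≠ i_0`, where `i_0` is any element of `C`
(`Pool.Agent.R920.WC.exists_reduced`); the `a_i`, `i ∈ C`, are a minimal system of generators,
so that `|C| ≤ a_i`, and the choice of `i_0` with `ℓ_i a_i` maximal gives that all
`e ≥ ∑_{i ∈ C} (ℓ_i - 1)(a_i - 1)` are in the semigroup.
-/

set_option autoImplicit false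

namespace Pool.Agent.Results.MP_9ff3e7_ag.CoprimeCompleteIntersections

open MvPolynomial

/-- `K_X + m A` is globally generated for `A = O(k)`, `k ≥ 1`, `m ≥ n + 1`, if `X` is a weighted
complete intersection of dimension `n` and any codimension `c` with pairwise coprime weights on
which `O(1)` is invertible. -/
theorem result (n c : ℕ) (a : Fin (n + c + 1) → ℕ) (ha : ∀ i, 0 < a i)
    (hcop : ∀ i i', i ≠ i' → Nat.Coprime (a i) (a i')) (d : Fin c → ℕ) (hd : ∀ j, 0 < d j)
    (f : Fin c → MvPolynomial (Fin (n + c + 1)) ℂ) (hf : ∀ j, IsWeightedHomogeneous a (f j) (d j))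
    (hgcd : ∀ v : Fin (n + c + 1) → ℂ, v ≠ 0 → (∀ j, eval v (f j) = 0) →
      ∀ g : ℕ, (∀ i, v i ≠ 0 → g ∣ a i) → g = 1)
    (k m e : ℕ) (hk : 1 ≤ k) (hm : n + 1 ≤ m) (he : e + ∑ i, a i = ∑ j, d j + m * k) :
    ∀ v : Fin (n + c + 1) → ℂ, v ≠ 0 → (∀ j, eval v (f j) = 0) →
      ∃ s : MvPolynomial (Fin (n + c + 1)) ℂ, IsWeightedHomogeneous a s e ∧ eval v s ≠ 0 := by
  intro v hv hfv
  refine Pool.Agent.R920.WC.generated a ha hcop d hd f hf ?_ ?_ v hv hfv
  · intro i hi
    by_contra hcon
    push Not at hcon
    have h1 := hgcd (Pi.single i 1) (by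
      intro h
      have := congrFun h i
      rw [Pi.single_eq_same] at this
      exact one_ne_zero this) hcon (a i) (by
      intro i' hi'
      have : i' = i := by
        by_contra hne
        exact hi' (Pi.single_eq_of_ne hne _)
      rw [this])
    omega
  · have h1 : ∑ i, a i = ∑ i, (a i - 1) + (n + c + 1) := by
      have : ∑ i, a i = ∑ i, ((a i - 1) + 1) := Finset.sum_congr rfl fun i _ => by
        have := ha i
        omega
      rw [this, Finset.sum_add_distrib]
      simp
    have h2 : ∑ j, d j = ∑ j, (d j - 1) + c := by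
      have : ∑ j, d j = ∑ j, ((d j - 1) + 1) := Finset.sum_congr rfl fun j _ => by
        have := hd j
        omega
      rw [this, Finset.sum_add_distrib]
      simp
    have h3 : n + 1 ≤ m * k := hm.trans (Nat.le_mul_of_pos_right _ hk)
    omega

end Pool.Agent.Results.MP_9ff3e7_ag.CoprimeCompleteIntersections
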