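import Pool.Agent.R920.WQ.Setup
import Pool.Agent.R920.WQ.Num
import Pool.Agent.R920.WQ.Pts
import Pool.Agent.H39R2.FujGeo

/-!
# Fujita's freeness conjecture for étale quotients of weighted hypersurfaces

`Y = V(f)` is a hypersurface of degree `d` and dimension `n` in the weighted projective space
`P(a_0, …, a_(n+1))`, and a finite group `G` acts on `Y` by diagonal matrices, such that `ℂˣ × G`
acts freely on the cone over `Y` without its vertex. Let `X = Y/G`, and let `A` be a line bundle on
`X` whose pullback to `Y` is `O(k)`, `k ≥ 1`. Then `K_X + mA` is globally generated for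
`m ≥ n + 1`.
-/

set_option autoImplicit false

namespace Pool.Agent.Results.MP_9ff3e7_ag.WeightedQuotients

open MvPolynomial Pool.Agent.R920.WC Pool.Agent.R920.WQ

/-- A weighted homogeneous polynomial `f` of weighted degree `d`, the variable `x_i` having weight
`a i`, and an action of `G` by diagonal matrices, the `i`-th coordinate being multiplied by the
character `α i`. The group maps `f` to multiples of `f`, and `ℂˣ × G` acts without stabilizers on
the nonzero zeros of `f`. -/
structure WeightedCover (G : Type) [Group G] (n : ℕ) where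
  a : Fin (n + 2) → ℕ
  pos : ∀ i, 0 < a i
  d : ℕ
  dpos : 0 < d
  f : MvPolynomial (Fin (n + 2)) ℂ
  homogeneous : IsWeightedHomogeneous a f d
  α : Fin (n + 2) → G →* ℂˣ
  stable : ∀ g : G, ∃ c : ℂ, ∀ x : Fin (n + 2) → ℂ,
    eval (fun i => (α i g : ℂ) * x i) f = c * eval x f
  free : ∀ v : Fin (n + 2) → ℂ, v ≠ 0 → eval v f = 0 → ∀ (g : G) (t : ℂ),
    (∀ i, (α i g : ℂ) * v i = t ^ a i * v i) → g = 1 ∧ t = 1

/-- The forms of weighted degree `e` on which `G` acts by the character `χ`: the sections of the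
line bundle on `X = Y/G` given by `e` and `χ`. -/
def Section {G : Type} [Group G] {n : ℕ} (D : WeightedCover G n) (e : ℕ) (χ : G →* ℂˣ)
    (s : MvPolynomial (Fin (n + 2)) ℂ) : Prop :=
  IsWeightedHomogeneous D.a s e ∧
    ∀ (g : G) (x : Fin (n + 2) → ℂ), eval (fun i => (D.α i g : ℂ) * x i) s = χ g * eval x s

theorem result {G : Type} [Group G] [Finite G] (n : ℕ) (D : WeightedCover G n)
    (k m e : ℕ) (hk : 1 ≤ k) (hm : n + 1 ≤ m) (he : e + ∑ i, D.a i = D.d + m * k)
    (χ : G →* ℂˣ) (v : Fin (n + 2) → ℂ) (hv : v ≠ 0) (hfv : eval v D.f = 0) :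
    ∃ s, Section D e χ s ∧ eval v s ≠ 0 := by
  classical
  have hmk : n + 1 ≤ m * k := hm.trans (Nat.le_mul_of_pos_right m hk)
  have hE : D.d ≤ e + 1 + ∑ l, (D.a l - 1) := by
    have h1 : ∑ l, D.a l = ∑ l, (D.a l - 1) + (n + 2) := by
      have h2 : ∀ l : Fin (n + 2), D.a l = (D.a l - 1) + 1 := fun l => by
        have := D.pos l
        omega
      calc ∑ l, D.a l = ∑ l, ((D.a l - 1) + 1) := Finset.sum_congr rfl (fun l _ => h2 l)
        _ = ∑ l, (D.a l - 1) + (n + 2) := by
            rw [Finset.sum_add_distrib]; simp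
    omega
  rcases subsingleton_or_nontrivial G with hG | hG
  · -- the group is trivial
    have hgcd : ∀ v : Fin (n + 2) → ℂ, v ≠ 0 → eval v D.f = 0 →
        ∀ q : ℕ, (∀ i, v i ≠ 0 → q ∣ D.a i) → q = 1 := by
      intro v hv hfv q hq
      obtain ⟨i, hi⟩ : ∃ i, v i ≠ 0 := by
        by_contra hcon
        push Not at hcon
        exact hv (funext hcon)
      have hq0 : q ≠ 0 := by
        rintro rfl
        have h1 := hq i hi
        have h2 := D.pos i
        rw [zero_dvd_iff] at h1
        omega
      have hp := Complex.isPrimitiveRoot_exp q hq0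
      have h1 := (D.free v hv hfv 1 _ (fun j => by
        rw [map_one, Units.val_one, one_mul]
        by_cases hj : v j = 0
        · rw [hj, mul_zero]
        · rw [(hp.pow_eq_one_iff_dvd _).2 (hq j hj), one_mul])).2
      rw [h1] at hp
      exact (hp.unique IsPrimitiveRoot.one)
    obtain ⟨s, hs, hsv⟩ := generated (κ := Fin 1) D.a D.pos
      (fun i k hik => Pool.Agent.H39R2.Fuj.coprime_all D.a D.d D.f hgcd D.homogeneous D.dpos D.pos
        i k hik)
      (fun _ => D.d) (fun _ => D.dpos) (fun _ => D.f) (fun _ => D.homogeneous) (by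
        intro i hi
        refine ⟨0, fun h => ?_⟩
        have h1 := hgcd (Pi.single i 1) (by
          intro h0
          have := congrFun h0 i
          rw [Pi.single_eq_same] at this
          exact one_ne_zero this) h (D.a i) (by
          intro j hj
          by_cases hji : j = i
          · rw [hji]
          · rw [Pi.single_eq_of_ne hji] at hj
            exact absurd rfl hj)
        omega)
      (e := e) (by
        rw [Fin.sum_univ_one]
        omega) v hv (fun _ => hfv)
    refine ⟨s, ⟨hs, fun g x => ?_⟩, hsv⟩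
    have hg : g = 1 := Subsingleton.elim _ _
    subst hg
    simp
  · have S : Pool.Agent.R920.WQ.Setup D.a D.α D.d D.f :=
      ⟨D.pos, D.dpos, D.homogeneous, D.stable, D.free, hG⟩
    obtain ⟨i, hi⟩ : ∃ i, v i ≠ 0 := by
      by_contra hcon
      push Not at hcon
      exact hv (funext hcon)
    obtain ⟨k, hki, hk⟩ := S.two_supp hv hfv i
    obtain ⟨M, h1, hM, h2⟩ := S.dvd_all hki.symm
    set T : Finset (Fin (n + 2)) := Finset.univ.filter (fun m => m ≠ i ∧ m ≠ k) with hT
    have h3 := one_add_sum_le_prod T D.a (fun m _ => D.pos m)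
    have h4 : ∏ m ∈ T, D.a m ≤ M := Nat.le_of_dvd hM h2
    have h5 : ∑ l, (D.a l - 1) = (D.a i - 1) + (D.a k - 1) + ∑ l ∈ T, (D.a l - 1) := by
      rw [← Finset.add_sum_erase _ _ (Finset.mem_univ i),
        ← Finset.add_sum_erase _ _ (Finset.mem_erase.2 ⟨hki, Finset.mem_univ k⟩), ← add_assoc]
      congr 1
      refine Finset.sum_congr ?_ fun _ _ => rfl
      ext m
      simp only [Finset.mem_erase, Finset.mem_univ, and_true, hT, Finset.mem_filter, true_and]
      tauto
    have h6 : Nat.card G * D.a i * D.a k + 1 ≤ e + D.a i + D.a k := by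
      have hpos : 1 ≤ Nat.card G * D.a i * D.a k :=
        Nat.mul_pos (Nat.mul_pos Nat.card_pos (D.pos i)) (D.pos k)
      have ha := D.pos i
      have hb := D.pos k
      obtain ⟨m, rfl⟩ : ∃ m, M = m + 1 := ⟨M - 1, by omega⟩
      set Q := Nat.card G * D.a i * D.a k with hQ
      have hd' : D.d = m * Q + Q := by rw [h1]; ring
      have hm : m * 1 ≤ m * Q := Nat.mul_le_mul_left _ hpos
      omega
    obtain ⟨u, w, e1, e2⟩ := (S.free hki.symm).exists_nat (D.pos i) e χ h6
    refine ⟨_, isSec_pair e1 e2, ?_⟩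
    simp only [map_mul, map_pow, eval_X]
    exact mul_ne_zero (pow_ne_zero _ hi) (pow_ne_zero _ hk)

end Pool.Agent.Results.MP_9ff3e7_ag.WeightedQuotients
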